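import Mathlib
import Pool.Agent.R175.PSG.Fin
import Pool.Agent.R175.PSG.Three

/-!
# Partial shattering by `o(log n)` permutations: `k = 5`, and `t` of order `k log k` for all `k`

`f_k(n, t) = o(log n)` for all `k ≥ 4` and `t ≤ 2 ^ (⌈log₂ k⌉ + 1)`; for `k = 5` this is the whole
range `t ≤ 2 ^ (k - 1) = 16`. Also for all `k ≥ 4` and `t ≤ (3 / 7) * k * (log₂ k - 1)`, and for
all `k ≥ 7`, `k ≠ 9` and `t ≤ 3 * 2 ^ ⌈log₂ k⌉`.
-/

set_option autoImplicit false

open Finset Filter Topology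

namespace Pool.Agent.Results.MP_157e4e_co.Superlinear

/-- The ordering of `X` induced by the permutation `ρ` (viewed as the linear order
`x <_ρ y ↔ ρ x < ρ y`), as a relation on `X`. -/
def inducedOrder {n : ℕ} (ρ : Equiv.Perm (Fin n)) (X : Finset (Fin n)) : X → X → Prop :=
  fun x y => ρ x < ρ y

/-- The family `P` `t`-shatters `X`: its members induce at least `t` distinct orderings of `X`. -/
def Shatters {n : ℕ} (t : ℕ) (P : Finset (Equiv.Perm (Fin n))) (X : Finset (Fin n)) : Prop :=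
  t ≤ ((fun ρ : Equiv.Perm (Fin n) => inducedOrder ρ X) '' (P : Set (Equiv.Perm (Fin n)))).ncard

/-- `f k n t` is the minimum size of a family of permutations of `[n]` that `t`-shatters every
`k`-element subset. -/
noncomputable def f (k n t : ℕ) : ℕ :=
  sInf {s | ∃ P : Finset (Equiv.Perm (Fin n)), P.card = s ∧
    ∀ X : Finset (Fin n), X.card = k → Shatters t P X}

theorem small (k N T : ℕ) (hC : R175.PSG.Cnt k T N) (t : ℕ) (ht : t ≤ N) :
    Tendsto (fun n : ℕ => (f k n t : ℝ) / Real.log n) atTop (𝓝 0) := by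
  rw [Metric.tendsto_atTop]
  intro ε hε
  obtain ⟨K, hK⟩ := exists_nat_gt (2 / (ε / 2))
  obtain ⟨n₀, h⟩ := R175.PSG.up_shatters T K
  refine ⟨max n₀ 2, fun n hn => ?_⟩
  obtain ⟨P, hP, hX⟩ := h n (le_trans (le_max_left _ _) hn)
  have hn2 : 2 ≤ n := le_trans (le_max_right _ _) hn
  have hn1 : 1 ≤ n := by omega
  have hlog : 0 < Real.log n := Real.log_pos (by exact_mod_cast (by omega : 1 < n))
  have h1 : f k n t ≤ P.card :=
    Nat.sInf_le ⟨P, rfl, fun X hXk => ht.trans (hX k N hC X hXk)⟩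
  have h2 : (P.card : ℝ) ≤ ε / 2 * Real.log n := by
    have h2 : (Nat.log 2 n : ℝ) ≤ 2 * Real.log n := by
      have h3 : ((2 : ℕ) ^ Nat.log 2 n : ℕ) ≤ n := Nat.pow_log_le_self 2 (by omega)
      have h4 : ((2 : ℝ)) ^ Nat.log 2 n ≤ n := by exact_mod_cast h3
      have h5 := Real.log_le_log (by positivity) h4
      rw [Real.log_pow] at h5
      have h6 : (1 : ℝ) / 2 ≤ Real.log 2 := by
        have := Real.log_two_gt_d9
        linarith
      have h7 : (0 : ℝ) ≤ Nat.log 2 n := Nat.cast_nonneg _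
      nlinarith
    have h3 : (K : ℝ) * P.card ≤ Nat.log 2 n := by exact_mod_cast hP
    have hK0 : (0 : ℝ) < K := lt_trans (by positivity) hK
    have h4 : 2 < ε / 2 * K := by
      rw [div_lt_iff₀ (by positivity)] at hK
      linarith
    have h5 : (K : ℝ) * P.card ≤ K * (ε / 2 * Real.log n) := by nlinarith
    exact le_of_mul_le_mul_left h5 hK0
  have h2' : (f k n t : ℝ) ≤ ε / 2 * Real.log n := le_trans (by exact_mod_cast h1) h2
  have h3 : 0 ≤ (f k n t : ℝ) / Real.log n := by positivity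
  rw [Real.dist_eq, sub_zero, abs_of_nonneg h3, div_lt_iff₀ hlog]
  nlinarith

/-- **Main theorem.**
(1) `f_5(n, t) = o(log n)` for all `t ≤ 2 ^ (5 - 1)`, the whole range of the conjecture for `k = 5`.
(2) `f_k(n, t) = o(log n)` for all `k ≥ 4` and all `t ≤ 2 ^ (⌈log₂ k⌉ + 1)`.
(3) `f_k(n, t) = o(log n)` for all `k ≥ 4` and all `t ≤ (⌊(3 ⌈log₂ k⌉ - 4) / 7⌋ + 1) 2 ^ ⌈log₂ k⌉`.
(4) `f_k(n, t) = o(log n)` for all `k ≥ 4` and all `t ≤ (3 / 7) * k * (log₂ k - 1)`.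
(5) `f_k(n, t) = o(log n)` for all `k ≥ 7` with `k ≠ 9` and all `t ≤ 3 * 2 ^ ⌈log₂ k⌉`. -/
theorem result :
    (∀ t : ℕ, t ≤ 2 ^ (5 - 1) →
      Tendsto (fun n : ℕ => (f 5 n t : ℝ) / Real.log n) atTop (𝓝 0)) ∧
    (∀ k t : ℕ, 4 ≤ k → t ≤ 2 ^ (Nat.clog 2 k + 1) →
      Tendsto (fun n : ℕ => (f k n t : ℝ) / Real.log n) atTop (𝓝 0)) ∧
    (∀ k t : ℕ, 4 ≤ k → t ≤ ((3 * Nat.clog 2 k - 4) / 7 + 1) * 2 ^ Nat.clog 2 k →
      Tendsto (fun n : ℕ => (f k n t : ℝ) / Real.log n) atTop (𝓝 0)) ∧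
    (∀ k t : ℕ, 4 ≤ k → (t : ℝ) ≤ 3 / 7 * k * (Real.logb 2 k - 1) →
      Tendsto (fun n : ℕ => (f k n t : ℝ) / Real.log n) atTop (𝓝 0)) ∧
    (∀ k t : ℕ, 7 ≤ k → k ≠ 9 → t ≤ 3 * 2 ^ Nat.clog 2 k →
      Tendsto (fun n : ℕ => (f k n t : ℝ) / Real.log n) atTop (𝓝 0)) := by
  have key : ∀ k t : ℕ, 4 ≤ k → t ≤ 2 ^ (Nat.clog 2 k + 1) →
      Tendsto (fun n : ℕ => (f k n t : ℝ) / Real.log n) atTop (𝓝 0) :=
    fun k t hk ht => small k _ _ (R175.PSG.cnt_clog k hk) t ht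
  have key' : ∀ k t : ℕ, 4 ≤ k → t ≤ ((3 * Nat.clog 2 k - 4) / 7 + 1) * 2 ^ Nat.clog 2 k →
      Tendsto (fun n : ℕ => (f k n t : ℝ) / Real.log n) atTop (𝓝 0) :=
    fun k t hk ht => small k _ _ (R175.PSG.cnt_many k hk) t ht
  refine ⟨fun t ht => key 5 t (by norm_num) ?_, key, key', fun k t hk ht => key' k t hk ?_,
    fun k t hk hk9 ht => small k _ _ (R175.PSG.cnt_three k hk hk9) t ht⟩
  · have h5 : 3 ≤ Nat.clog 2 5 := by
      by_contra h
      have h1 : Nat.clog 2 5 ≤ 2 := by omega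
      rw [Nat.clog_le_iff_le_pow (by norm_num)] at h1
      norm_num at h1
    exact ht.trans (Nat.pow_le_pow_right (by norm_num) (by omega))
  · obtain ⟨c, hc⟩ : ∃ c, c = Nat.clog 2 k := ⟨_, rfl⟩
    rw [← hc]
    have hkc : k ≤ 2 ^ c := by
      rw [hc]; exact Nat.le_pow_clog (by norm_num) k
    have hkpos : (0 : ℝ) < k := by
      have : 0 < k := by omega
      exact_mod_cast this
    have h1 : Real.logb 2 k ≤ c := by
      rw [Real.logb_le_iff_le_rpow (by norm_num) hkpos, Real.rpow_natCast]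
      exact_mod_cast hkc
    have hc1 : 1 ≤ c := by
      by_contra h
      have h0 : c = 0 := by omega
      rw [h0] at hkc
      simp at hkc
      omega
    have h2 : 3 * c - 3 ≤ 7 * ((3 * c - 4) / 7 + 1) := by omega
    have h3 : (3 : ℝ) * c - 3 ≤ 7 * (((3 * c - 4) / 7 + 1 : ℕ) : ℝ) := by
      have h4 : ((3 * c - 3 : ℕ) : ℝ) ≤ ((7 * ((3 * c - 4) / 7 + 1) : ℕ) : ℝ) := by
        exact_mod_cast h2
      rw [Nat.cast_sub (by omega)] at h4
      push_cast at h4 ⊢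
      linarith
    have hkc' : (k : ℝ) ≤ 2 ^ c := by exact_mod_cast hkc
    have hc1' : (1 : ℝ) ≤ c := by exact_mod_cast hc1
    have h5 : (t : ℝ) ≤ (((3 * c - 4) / 7 + 1 : ℕ) : ℝ) * 2 ^ c := by
      generalize (((3 * c - 4) / 7 + 1 : ℕ) : ℝ) = S at h3
      calc (t : ℝ) ≤ 3 / 7 * k * (Real.logb 2 k - 1) := ht
        _ ≤ 3 / 7 * k * (c - 1) := by
          apply mul_le_mul_of_nonneg_left _ (by positivity)
          linarith
        _ = k * (3 / 7 * (c - 1)) := by ring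
        _ ≤ 2 ^ c * (3 / 7 * (c - 1)) := by
          apply mul_le_mul_of_nonneg_right hkc'
          linarith
        _ ≤ 2 ^ c * S := by
          apply mul_le_mul_of_nonneg_left _ (by positivity)
          linarith
        _ = S * 2 ^ c := by ring
    exact_mod_cast h5

end Pool.Agent.Results.MP_157e4e_co.Superlinear
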